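import Pool.Agent.H752.SV.Defs

/-!
# Auxiliary definitions
-/

namespace Pool.Agent.H752.SV

open Pool.Agent.NPC Pool.Agent.H620R2.Gauge

/-- the digit number `i` of `n` in base `q` -/
def dg (q n i : ℕ) : ℕ := n / q ^ i % q

/-- the number with the digits of `n` at the places of parity `r` -/
def part (q r n : ℕ) : ℕ :=
  ((List.range n.size).map fun i => if i % 2 = r then dg q n i * q ^ i else 0).sum

/-- the `i` such that no number with leading digit number `i` is in the tally language `L` -/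
def NL (q : ℕ) (L : Set (List Bool)) : Set ℕ :=
  {i | ∀ m, q ^ i ≤ m → m < q ^ (i + 1) → List.replicate m true ∉ L}

/-- a fast growing function with values of parity `r` -/
def lam (q : ℕ) (p : Polynomial ℕ) (r i : ℕ) : ℕ :=
  2 * (q * (i + 1) + p.eval (q ^ (i + 1)) + 1 + i) + r

def KK (q r : ℕ) (L : Set (List Bool)) : Set ℕ := {i | i ∈ NL q L ∧ i % 2 ≠ r}

def LZ (q : ℕ) (p : Polynomial ℕ) (r : ℕ) (L : Set (List Bool)) (N : ℕ) : Set (List Bool) :=
  {x | ∃ n, x = List.replicate n true ∧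
    ∀ j, dg q n j ≠ 0 → ∃ i ∈ KK q r L, N ≤ i ∧ lam q p r i = j}

def LW0 (q : ℕ) (p : Polynomial ℕ) (r : ℕ) (L : Set (List Bool)) : Set (List Bool) :=
  {x | ∃ n, x = List.replicate n true ∧ ∀ j, dg q n j ≠ 0 →
    (j ∈ KK q r L ∧ dg q n (lam q p r j) = dg q n j) ∨
      ∃ i ∈ KK q r L, lam q p r i = j ∧ dg q n i = dg q n j}

def LW (q : ℕ) (p : Polynomial ℕ) (r : ℕ) (L : Set (List Bool)) : Set (List Bool) :=
  {x | x ∈ LW0 q p r L ∧ List.replicate (part q r x.length) true ∈ L}

/-! ### The table of all short computations -/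

/-- the string with number `k` -/
def strOf (k : ℕ) : List Bool := k.bits.dropLast

def qi (n t : ℕ) : ℕ := t % (n + 1)
def qm (n t : ℕ) : ℕ := t / (n + 1) % (n + 1)
def qk (n t : ℕ) : ℕ := t / (n + 1) / (n + 1)

def qry (z : (ℕ × List Bool) × List Bool) : List Bool :=
  pairBits (strOf (qk z.1.2.length z.1.1)) (List.replicate (qm z.1.2.length z.1.1) true)

/-- the table -/
def tab (V : List Bool → List Bool) (x : List Bool) : List Bool :=
  (List.range ((x.length + 1) ^ 3)).map fun t => decide (V (qry ((t, x), [])) = [true])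

def valid (q : ℕ) (p : Polynomial ℕ) (n t : ℕ) : Bool :=
  decide (q ^ qi n t ≤ qm n t) && decide (qm n t < q ^ (qi n t + 1)) &&
    decide ((strOf (qk n t)).length ≤ p.eval (qm n t))

/-- `i ∈ NL q L`, as read off from the table `b` -/
def nlb (q : ℕ) (p : Polynomial ℕ) (x b : List Bool) (i : ℕ) : Bool :=
  !((List.range ((x.length + 1) ^ 3)).any fun t =>
    decide (qi x.length t = i) && valid q p x.length t && b.getD t false)

/-- `i ∈ KK q r L`, as read off from the table `b` -/
def kb (q : ℕ) (p : Polynomial ℕ) (r : ℕ) (x b : List Bool) (i : ℕ) : Bool :=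
  nlb q p x b i && !(decide (i % 2 = r))

/-- `lam`, computable in polynomial time -/
def lamS (q : ℕ) (p : Polynomial ℕ) (r : ℕ) (x : List Bool) (i : ℕ) : ℕ :=
  lam q p r (min i x.length.size)

def chkZ (q : ℕ) (p : Polynomial ℕ) (r N : ℕ) (z : List Bool × List Bool) : Bool :=
  z.1.all id && (List.range z.1.length.size).all fun j =>
    decide (dg q z.1.length j = 0) ||
    (List.range j).any fun i => kb q p r z.1 z.2 i && decide (N ≤ i) &&
      decide (lamS q p r z.1 i = j)

def chkW (q : ℕ) (p : Polynomial ℕ) (r : ℕ) (z : List Bool × List Bool) : Bool :=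
  z.1.all id && (List.range z.1.length.size).all fun j =>
    decide (dg q z.1.length j = 0) ||
    (kb q p r z.1 z.2 j &&
      decide (dg q z.1.length (lamS q p r z.1 j) = dg q z.1.length j)) ||
    (List.range j).any fun i => kb q p r z.1 z.2 i && decide (lamS q p r z.1 i = j) &&
      decide (dg q z.1.length i = dg q z.1.length j)

/-! ### Subspaces -/

variable {F : Type} [Field F]

/-- the span of the `e_(l i)`, `i ∈ K`, `N ≤ i` -/
def ZS (F : Type) [Field F] (K : Set ℕ) (l : ℕ → ℕ) (N : ℕ) : Submodule F (ℕ →₀ F) :=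
  Finsupp.supported F F {j | ∃ i ∈ K, N ≤ i ∧ l i = j}

/-- the vectors `z + β(z)`, where `z ∈ S` is in the span of the `e_(l i)`, `i ∈ K`, and `β` maps
`e_(l i)` to `e_i` -/
def WS (K : Set ℕ) (l : ℕ → ℕ) (r : ℕ) (S : Submodule F (ℕ →₀ F)) : Submodule F (ℕ →₀ F) where
  carrier := {v | (∀ i ∈ K, v (l i) = v i) ∧ (∀ j, j ∉ K → (∀ i ∈ K, l i ≠ j) → v j = 0) ∧
    v.filter (fun j => j % 2 = r) ∈ S}
  add_mem' := by
    rintro a b ⟨h1, h2, h3⟩ ⟨h4, h5, h6⟩
    refine ⟨fun i hi => ?_, fun j hj hj' => ?_, ?_⟩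
    · rw [Finsupp.add_apply, Finsupp.add_apply, h1 i hi, h4 i hi]
    · rw [Finsupp.add_apply, h2 j hj hj', h5 j hj hj', add_zero]
    · rw [Finsupp.filter_add]
      exact S.add_mem h3 h6
  zero_mem' := by
    refine ⟨fun i _ => rfl, fun j _ _ => rfl, ?_⟩
    rw [Finsupp.filter_zero]
    exact S.zero_mem
  smul_mem' := by
    rintro c a ⟨h1, h2, h3⟩
    refine ⟨fun i hi => ?_, fun j hj hj' => ?_, ?_⟩
    · rw [Finsupp.smul_apply, Finsupp.smul_apply, h1 i hi]
    · rw [Finsupp.smul_apply, h2 j hj hj', smul_zero]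
    · rw [Finsupp.filter_smul]
      exact S.smul_mem c h3

end Pool.Agent.H752.SV
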