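import Mathlib
import Pool.Agent.H620R2.Gauge2.Defs

/-!
# Subspaces of the tally vector space relative to an oracle
-/

namespace Pool.Agent.H752.SV

open Pool.Agent.NPC Pool.Agent.H620R2.Gauge

variable {F : Type} [Field F] [Fintype F]

/-- The code of the vector `v = ∑ aᵢ eᵢ` over the finite field `F`: the number `∑ φ(aᵢ) q ^ i`,
where `q` is the number of the elements of `F` and `φ` numbers them. -/
def code (φ : F ≃ Fin (Fintype.card F)) (v : ℕ →₀ F) : ℕ :=
  v.sum fun i a => (φ a : ℕ) * Fintype.card F ^ i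

/-- The language of the tally codes of the vectors in `S`. -/
def tally (φ : F ≃ Fin (Fintype.card F)) (S : Set (ℕ →₀ F)) : Set (List Bool) :=
  {x | ∃ v ∈ S, x = List.replicate (code φ v) true}

/-- `S` is an `NP` subspace relative to the oracle `D`. -/
def IsNPSub (φ : F ≃ Fin (Fintype.card F)) (D : Oracle) (S : Submodule F (ℕ →₀ F)) : Prop :=
  IsNP D (tally φ S)

/-- `S` is `NP`-simple relative to the oracle `D`: an `NP` subspace of infinite codimension that
meets every infinite `NP` subspace nontrivially. -/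
def IsSimple (φ : F ≃ Fin (Fintype.card F)) (D : Oracle) (S : Submodule F (ℕ →₀ F)) : Prop :=
  IsNPSub φ D S ∧ ¬ FiniteDimensional F ((ℕ →₀ F) ⧸ S) ∧
    ∀ W : Submodule F (ℕ →₀ F), IsNPSub φ D W → (W : Set (ℕ →₀ F)).Infinite → W ⊓ S ≠ ⊥

/-- `S` is `NP`-supermaximal relative to the oracle `D`: an `NP` subspace of infinite codimension
such that every `NP` subspace containing it is the whole space or finite-dimensional over it (the
image of `W` in the quotient of the whole space by `S` is `W / S`). -/
def IsSupermaximal (φ : F ≃ Fin (Fintype.card F)) (D : Oracle) (S : Submodule F (ℕ →₀ F)) :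
    Prop :=
  IsNPSub φ D S ∧ ¬ FiniteDimensional F ((ℕ →₀ F) ⧸ S) ∧
    ∀ W : Submodule F (ℕ →₀ F), IsNPSub φ D W → S ≤ W →
      W = ⊤ ∨ FiniteDimensional F (W.map S.mkQ)

end Pool.Agent.H752.SV
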