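import Pool.Agent.H752.SV.Base
import Pool.Agent.H620R2.GaugeR.R2
import Pool.Agent.H620R2.GaugeR.Seq

/-!
# The statements of the tasks
-/

namespace Pool.Agent.H752.SV

open Pool.Agent.NPC Pool.Agent.H620R2.Gauge

/-- V1: digits of codes -/
def St_dg : Prop := ∀ (F : Type) [Field F] [Fintype F] (φ : F ≃ Fin (Fintype.card F)),
    (φ 0 : ℕ) = 0 →
    (∀ (v : ℕ →₀ F) (i : ℕ), dg (Fintype.card F) (code φ v) i = φ (v i)) ∧
    ∀ n : ℕ, ∃ v : ℕ →₀ F, code φ v = n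

/-- V2: infinitely many places are not leading places of elements of `S` -/
def St_nl : Prop := ∀ (F : Type) [Field F] (S : Submodule F (ℕ →₀ F)),
    ¬ FiniteDimensional F ((ℕ →₀ F) ⧸ S) →
    {i : ℕ | ∀ v ∈ S, v i ≠ 0 → ∃ j, i < j ∧ v j ≠ 0}.Infinite

/-- V3: the algebra -/
def St_alg : Prop := ∀ (F : Type) [Field F] (S : Submodule F (ℕ →₀ F)) (K : Set ℕ) (l : ℕ → ℕ)
    (r : ℕ), Function.Injective l → (∀ i, i < l i) → (∀ i, l i % 2 = r) →
    (∀ i ∈ K, i % 2 ≠ r) → (∀ i ∈ K, ∀ v ∈ S, v i ≠ 0 → ∃ j, i < j ∧ v j ≠ 0) →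
    (∀ N, ZS F K l N ⊓ S ≠ ⊥) →
    (WS K l r S : Set (ℕ →₀ F)).Infinite ∧ WS K l r S ⊓ S = ⊥

/-- V4: the table is correct -/
def St_tab : Prop := ∀ (q : ℕ), 2 ≤ q → ∀ (p : Polynomial ℕ) (r : ℕ)
    (V : List Bool → List Bool) (L : Set (List Bool)),
    (∀ x, x ∈ L ↔ ∃ w : List Bool, w.length ≤ p.eval x.length ∧ V (pairBits w x) = [true]) →
    ∀ (x : List Bool) (i : ℕ), q ^ lam q p r i ≤ x.length →
      (nlb q p x (tab V x) i = true ↔ i ∈ NL q L)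

/-- V5: the checks are correct -/
def St_chk : Prop := ∀ (q : ℕ), 2 ≤ q → ∀ (p : Polynomial ℕ) (r : ℕ)
    (V : List Bool → List Bool) (L : Set (List Bool)),
    (∀ x, x ∈ L ↔ ∃ w : List Bool, w.length ≤ p.eval x.length ∧ V (pairBits w x) = [true]) →
    ∀ x : List Bool, (∀ N, chkZ q p r N (x, tab V x) = true ↔ x ∈ LZ q p r L N) ∧
      (chkW q p r (x, tab V x) = true ↔ x ∈ LW0 q p r L)

/-- V6: arithmetic in polynomial time -/
def St_poly1 : Prop := ∀ (q : ℕ) (p : Polynomial ℕ) (r : ℕ), 2 ≤ q →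
    NPC.Poly (fun z : ℕ × ℕ => dg q z.1 z.2) ∧
    NPC.Poly (fun z : List Bool × ℕ => lamS q p r z.1 z.2) ∧
    NPC.Poly qry ∧
    NPC.Poly (fun z : List Bool × ℕ => valid q p z.1.length z.2)

/-- V7: the checks in polynomial time -/
def St_poly2 : Prop := ∀ (q : ℕ) (p : Polynomial ℕ) (r N : ℕ), 2 ≤ q →
    NPC.Poly (chkZ q p r N) ∧ NPC.Poly (chkW q p r)

/-- V8: the parts in polynomial time -/
def St_part : Prop := ∀ (q r : ℕ), 2 ≤ q → (∀ n, part q r n ≤ n) ∧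
    NPC.Poly (fun x : List Bool => List.replicate (part q r x.length) true)

/-- V9: the languages are in `NP` -/
def St_np : Prop := ∀ (q : ℕ), 2 ≤ q → ∀ (D : Oracle) (L : Set (List Bool)), IsNP D L →
    ∃ p : Polynomial ℕ, ∀ r : ℕ, (∀ N, IsNP D (LZ q p r L N)) ∧ IsNP D (LW q p r L)

/-- V10: the languages of the subspaces -/
def St_tz : Prop := ∀ (F : Type) [Field F] [Fintype F] (φ : F ≃ Fin (Fintype.card F)),
    (φ 0 : ℕ) = 0 → ∀ (S : Submodule F (ℕ →₀ F)) (p : Polynomial ℕ) (r N : ℕ),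
    (∀ i, i ∈ NL (Fintype.card F) (tally φ S) ↔ ∀ v ∈ S, v i ≠ 0 → ∃ j, i < j ∧ v j ≠ 0) ∧
    tally φ (ZS F (KK (Fintype.card F) r (tally φ S)) (lam (Fintype.card F) p r) N) =
      LZ (Fintype.card F) p r (tally φ S) N

/-- V11: the languages of the subspaces -/
def St_tw : Prop := ∀ (F : Type) [Field F] [Fintype F] (φ : F ≃ Fin (Fintype.card F)),
    (φ 0 : ℕ) = 0 → ∀ (S : Submodule F (ℕ →₀ F)) (p : Polynomial ℕ) (r : ℕ), r < 2 →
    tally φ (WS (KK (Fintype.card F) r (tally φ S)) (lam (Fintype.card F) p r) r S) =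
      LW (Fintype.card F) p r (tally φ S)

end Pool.Agent.H752.SV
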